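import Pool.Agent.W70.HR.Stm
import Pool.Agent.W70.QP.Main

/-!
# Project HR (owner helper70), part SAMP

The combinatorial theorem for families with few exceptional `H`: averaging over all functions
`z : Fin n → V` and applying `Pool.Agent.W70.QP.main` to the pull-back of the family by `z`.
-/

set_option autoImplicit false

open Finset

namespace Pool.Agent.W11.HR

open Pool.Agent.W70.HR

open Classical in
/-- number of functions with a prescribed set of restrictions -/
theorem fib {ι : Type} [Fintype ι] {n : ℕ} (V : Finset ℕ) (y : ι → Fin n)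
    (hy : Function.Injective y) (E : Finset (ι → ℕ)) :
    ((Fintype.piFinset (fun _ : Fin n => V)).filter (fun z => (fun i => z (y i)) ∈ E)).card ≤
      E.card * V.card ^ (n - Fintype.card ι) := by
  classical
  have hc : Fintype.card {j : Fin n // j ∉ Set.range y} = n - Fintype.card ι := by
    have h1 := Fintype.card_subtype_compl (fun j : Fin n => j ∈ Set.range y)
    have h2 : Fintype.card {j : Fin n // j ∈ Set.range y} = Fintype.card ι := by
      exact Set.card_range_of_injective hy
    rw [h2, Fintype.card_fin] at h1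
    exact h1
  have hcard : (E ×ˢ Fintype.piFinset (fun _ : {j : Fin n // j ∉ Set.range y} => V)).card =
      E.card * V.card ^ (n - Fintype.card ι) := by
    rw [card_product, Fintype.card_piFinset, prod_const, card_univ, hc]
  rw [← hcard]
  apply card_le_card_of_injOn
    (fun z => ((fun i => z (y i)), (fun j : {j : Fin n // j ∉ Set.range y} => z j.1)))
  · intro z hz
    rw [mem_coe, mem_filter, Fintype.mem_piFinset] at hz
    rw [mem_coe, mem_product, Fintype.mem_piFinset]
    exact ⟨hz.2, fun j => hz.1 j.1⟩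
  · intro z _ z' _ h
    rw [Prod.mk.injEq] at h
    funext j
    by_cases hj : j ∈ Set.range y
    · obtain ⟨i, rfl⟩ := hj
      exact congrFun h.1 i
    · exact congrFun h.2 ⟨j, hj⟩

open Classical in
/-- the functions that are not injective are rare -/
theorem noninj (n : ℕ) (V : Finset ℕ) :
    ((Fintype.piFinset (fun _ : Fin n => V)).filter (fun z => ¬ Function.Injective z)).card ≤
      n * n * V.card ^ (n - 1) := by
  classical
  have hsub : (Fintype.piFinset (fun _ : Fin n => V)).filter (fun z => ¬ Function.Injective z) ⊆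
      ((univ : Finset (Fin n × Fin n)).filter (fun p => p.1 ≠ p.2)).biUnion (fun p =>
        (Fintype.piFinset (fun _ : Fin n => V)).filter (fun z =>
          (fun i : Fin 2 => z ((![p.1, p.2] : Fin 2 → Fin n) i)) ∈
            V.image (fun a => (fun _ : Fin 2 => a)))) := by
    intro z hz
    rw [mem_filter] at hz
    obtain ⟨hzV, hz2⟩ := hz
    rw [Function.Injective] at hz2
    push Not at hz2
    obtain ⟨i, j, hij, hne⟩ := hz2
    rw [mem_biUnion]
    refine ⟨(i, j), by rw [mem_filter]; exact ⟨mem_univ _, hne⟩, ?_⟩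
    rw [mem_filter]
    refine ⟨hzV, ?_⟩
    rw [mem_image]
    refine ⟨z i, (Fintype.mem_piFinset.1 hzV) i, ?_⟩
    funext l
    fin_cases l
    · rfl
    · exact hij
  refine (card_le_card hsub).trans ?_
  refine card_biUnion_le.trans ?_
  have hb : ∀ p ∈ (univ : Finset (Fin n × Fin n)).filter (fun p => p.1 ≠ p.2),
      ((Fintype.piFinset (fun _ : Fin n => V)).filter (fun z =>
          (fun i : Fin 2 => z ((![p.1, p.2] : Fin 2 → Fin n) i)) ∈
            V.image (fun a => (fun _ : Fin 2 => a)))).card ≤ V.card ^ (n - 1) := by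
    intro p hp
    rw [mem_filter] at hp
    have hinj : Function.Injective (![p.1, p.2] : Fin 2 → Fin n) := by
      intro a b hab
      fin_cases a <;> fin_cases b
      · rfl
      · exact absurd hab hp.2
      · exact absurd hab.symm hp.2
      · rfl
    have h2 : 2 ≤ n := by
      have := Fintype.card_le_of_injective _ hinj
      simpa using this
    refine (fib V _ hinj _).trans ?_
    rw [Fintype.card_fin]
    calc (V.image (fun a => (fun _ : Fin 2 => a))).card * V.card ^ (n - 2)
        ≤ V.card * V.card ^ (n - 2) := Nat.mul_le_mul_right _ card_image_le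
      _ = V.card ^ (n - 1) := by
          rw [← pow_succ']
          congr 1
          omega
  refine (sum_le_card_nsmul _ _ _ hb).trans ?_
  rw [smul_eq_mul]
  apply Nat.mul_le_mul_right
  refine (card_filter_le _ _).trans ?_
  rw [card_univ, Fintype.card_prod, Fintype.card_fin]

open Classical in
/-- the functions `z` for which `z ∘ H` is exceptional for some `H` are rare -/
theorem excep (n M : ℕ) (Kf : ℕ → ℕ) (V : Finset ℕ) (G : Finset ℕ → Prop) (ε₁ : ℝ)
    (hE : ∀ T : ℕ, 1 ≤ T → T ≤ M →
      ((Exc G T (Kf T) V).card : ℝ) ≤ ε₁ * (V.card : ℝ) ^ (T * Kf T)) (hε : 0 ≤ ε₁) :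
    (((Fintype.piFinset (fun _ : Fin n => V)).filter (fun z =>
      ∃ T : ℕ, 1 ≤ T ∧ T ≤ M ∧ ∃ H : Fin T → Fin (Kf T) → Fin n,
        Function.Injective (fun x : Fin T × Fin (Kf T) => H x.1 x.2) ∧
        (fun g i => z (H g i)) ∈ Exc G T (Kf T) V)).card : ℝ) ≤
      (∑ T ∈ range (M + 1), (n : ℝ) ^ (T * Kf T)) * (ε₁ * (V.card : ℝ) ^ n) := by
  classical
  have hsub : (Fintype.piFinset (fun _ : Fin n => V)).filter (fun z =>
      ∃ T : ℕ, 1 ≤ T ∧ T ≤ M ∧ ∃ H : Fin T → Fin (Kf T) → Fin n,
        Function.Injective (fun x : Fin T × Fin (Kf T) => H x.1 x.2) ∧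
        (fun g i => z (H g i)) ∈ Exc G T (Kf T) V) ⊆
      ((range (M + 1)).filter (fun T => 1 ≤ T)).biUnion (fun T =>
        ((univ : Finset (Fin T → Fin (Kf T) → Fin n)).filter (fun H =>
          Function.Injective (fun x : Fin T × Fin (Kf T) => H x.1 x.2))).biUnion (fun H =>
          (Fintype.piFinset (fun _ : Fin n => V)).filter (fun z =>
            (fun x : Fin T × Fin (Kf T) => z (H x.1 x.2)) ∈
              (Exc G T (Kf T) V).image (fun h => (fun x : Fin T × Fin (Kf T) => h x.1 x.2))))) := by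
    intro z hz
    rw [mem_filter] at hz
    obtain ⟨hzV, T, hT1, hTM, H, hH, hz2⟩ := hz
    rw [mem_biUnion]
    refine ⟨T, by rw [mem_filter, mem_range]; exact ⟨by omega, hT1⟩, ?_⟩
    rw [mem_biUnion]
    refine ⟨H, by rw [mem_filter]; exact ⟨mem_univ _, hH⟩, ?_⟩
    rw [mem_filter]
    refine ⟨hzV, ?_⟩
    rw [mem_image]
    exact ⟨_, hz2, rfl⟩
  have h1 : ((((range (M + 1)).filter (fun T => 1 ≤ T)).biUnion (fun T =>
        ((univ : Finset (Fin T → Fin (Kf T) → Fin n)).filter (fun H =>
          Function.Injective (fun x : Fin T × Fin (Kf T) => H x.1 x.2))).biUnion (fun H =>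
          (Fintype.piFinset (fun _ : Fin n => V)).filter (fun z =>
            (fun x : Fin T × Fin (Kf T) => z (H x.1 x.2)) ∈
              (Exc G T (Kf T) V).image
                (fun h => (fun x : Fin T × Fin (Kf T) => h x.1 x.2)))))).card : ℝ) ≤
      ∑ T ∈ (range (M + 1)).filter (fun T => 1 ≤ T),
        (n : ℝ) ^ (T * Kf T) * (ε₁ * (V.card : ℝ) ^ n) := by
    refine (Nat.cast_le.2 card_biUnion_le).trans ?_
    push_cast
    apply sum_le_sum
    intro T hT
    rw [mem_filter, mem_range] at hT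
    refine (Nat.cast_le.2 card_biUnion_le).trans ?_
    push_cast
    have hb : ∀ H ∈ (univ : Finset (Fin T → Fin (Kf T) → Fin n)).filter (fun H =>
          Function.Injective (fun x : Fin T × Fin (Kf T) => H x.1 x.2)),
        (((Fintype.piFinset (fun _ : Fin n => V)).filter (fun z =>
            (fun x : Fin T × Fin (Kf T) => z (H x.1 x.2)) ∈
              (Exc G T (Kf T) V).image
                (fun h => (fun x : Fin T × Fin (Kf T) => h x.1 x.2)))).card : ℝ) ≤
          ε₁ * (V.card : ℝ) ^ n := by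
      intro H hH
      rw [mem_filter] at hH
      have hc : T * Kf T ≤ n := by
        have := Fintype.card_le_of_injective _ hH.2
        simpa using this
      have h2 := fib V _ hH.2 ((Exc G T (Kf T) V).image
                (fun h => (fun x : Fin T × Fin (Kf T) => h x.1 x.2)))
      have h3 : ((Exc G T (Kf T) V).image
                (fun h => (fun x : Fin T × Fin (Kf T) => h x.1 x.2))).card ≤
          (Exc G T (Kf T) V).card := card_image_le
      have h4 : Fintype.card (Fin T × Fin (Kf T)) = T * Kf T := by simp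
      rw [h4] at h2
      have h5 := h2.trans (Nat.mul_le_mul_right _ h3)
      have h6 : (((Fintype.piFinset (fun _ : Fin n => V)).filter (fun z =>
            (fun x : Fin T × Fin (Kf T) => z (H x.1 x.2)) ∈
              (Exc G T (Kf T) V).image
                (fun h => (fun x : Fin T × Fin (Kf T) => h x.1 x.2)))).card : ℝ) ≤
          (Exc G T (Kf T) V).card * (V.card : ℝ) ^ (n - T * Kf T) := by
        exact_mod_cast h5
      refine h6.trans ?_
      refine (mul_le_mul_of_nonneg_right (hE T hT.2 (by omega)) (by positivity)).trans ?_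
      rw [mul_assoc, ← pow_add, Nat.add_sub_cancel' hc]
    refine (sum_le_card_nsmul _ _ _ hb).trans ?_
    rw [nsmul_eq_mul]
    apply mul_le_mul_of_nonneg_right _ (by positivity)
    have h7 : (((univ : Finset (Fin T → Fin (Kf T) → Fin n)).filter (fun H =>
          Function.Injective (fun x : Fin T × Fin (Kf T) => H x.1 x.2))).card) ≤
        n ^ (T * Kf T) := by
      refine (card_filter_le _ _).trans ?_
      rw [card_univ]
      simp only [Fintype.card_fun, Fintype.card_fin]
      rw [← pow_mul, mul_comm]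
    exact_mod_cast h7
  refine (Nat.cast_le.2 (card_le_card hsub)).trans (h1.trans ?_)
  rw [sum_mul]
  apply sum_le_sum_of_subset_of_nonneg (filter_subset _ _)
  intro T _ _
  positivity

theorem samp : S_SAMP := by
  classical
  intro k ε hε Kf hKf
  have ha1 : (1 / 4 : ℝ) ^ k ≤ 1 := pow_le_one₀ (by norm_num) (by norm_num)
  rcases le_or_gt ((1 / 4 : ℝ) ^ k - ε) 0 with hneg | hpos
  · refine ⟨0, 1, 0, one_pos, fun V G _ _ _ => ?_⟩
    have : ((1 / 4 : ℝ) ^ k - ε) * (V.card : ℝ) ^ (k + 1) ≤ 0 :=
      mul_nonpos_of_nonpos_of_nonneg hneg (by positivity)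
    exact this.trans (Nat.cast_nonneg _)
  obtain ⟨T0, M, _, hmain⟩ := Pool.Agent.W70.QP.main k (ε / 2) (by positivity) Kf
  obtain ⟨n₀, hn₀⟩ := hmain Unit
  set n : ℕ := n₀ + k + 1 with hn
  set P : ℝ := ∑ T ∈ range (M + 1), (n : ℝ) ^ (T * Kf T) with hP
  have hP0 : 0 ≤ P := by positivity
  refine ⟨M, ε / (4 * (P + 1)), ⌈4 * (n : ℝ) ^ 2 / ε⌉₊ + 1, by positivity, ?_⟩
  intro V G hV hG hE
  set v : ℕ := V.card with hv
  have hv1 : 1 ≤ v := by omega
  have hvp : (0 : ℝ) < v := by exact_mod_cast hv1
  have hvn : 4 * (n : ℝ) ^ 2 / ε ≤ v := by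
    have h1 : 4 * (n : ℝ) ^ 2 / ε ≤ (⌈4 * (n : ℝ) ^ 2 / ε⌉₊ : ℝ) := Nat.le_ceil _
    have h2 : ((⌈4 * (n : ℝ) ^ 2 / ε⌉₊ : ℕ) : ℝ) ≤ v := by
      exact_mod_cast (by omega : ⌈4 * (n : ℝ) ^ 2 / ε⌉₊ ≤ v)
    exact h1.trans h2
  set Z := Fintype.piFinset (fun _ : Fin n => V) with hZ
  have hZc : (Z.card : ℝ) = (v : ℝ) ^ n := by
    rw [hZ, Fintype.card_piFinset_const]
    push_cast
    rfl
  set GV := (Fintype.piFinset (fun _ : Fin (k + 1) => V)).filter (fun y =>
    Function.Injective y ∧ G (univ.image y)) with hGV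
  -- the two kinds of bad functions
  set B1 := Z.filter (fun z => ¬ Function.Injective z) with hB1
  set B2 := Z.filter (fun z =>
      ∃ T : ℕ, 1 ≤ T ∧ T ≤ M ∧ ∃ H : Fin T → Fin (Kf T) → Fin n,
        Function.Injective (fun x : Fin T × Fin (Kf T) => H x.1 x.2) ∧
        (fun g i => z (H g i)) ∈ Exc G T (Kf T) V) with hB2
  have hc1 : (B1.card : ℝ) ≤ ε / 4 * (v : ℝ) ^ n := by
    have h1 := noninj n V
    have h2 : (B1.card : ℝ) ≤ (n : ℝ) ^ 2 * (v : ℝ) ^ (n - 1) := by
      have h3 : (B1.card : ℝ) ≤ ((n * n * V.card ^ (n - 1) : ℕ) : ℝ) := Nat.cast_le.2 h1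
      push_cast at h3
      rw [sq]
      exact h3
    refine h2.trans ?_
    have h4 : (v : ℝ) ^ n = v * (v : ℝ) ^ (n - 1) := by
      rw [← pow_succ']
      congr 1
    rw [h4, ← mul_assoc]
    apply mul_le_mul_of_nonneg_right _ (by positivity)
    rw [div_le_iff₀ hε] at hvn
    linarith
  have hc2 : (B2.card : ℝ) ≤ ε / 4 * (v : ℝ) ^ n := by
    have h1 := excep n M Kf V G (ε / (4 * (P + 1))) hE (by positivity)
    refine h1.trans ?_
    rw [← hP, ← hv, ← mul_assoc]
    apply mul_le_mul_of_nonneg_right _ (by positivity)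
    have h5 : P * (ε / (4 * (P + 1))) = ε / 4 * (P / (P + 1)) := by
      field_simp
    rw [h5]
    have h6 : P / (P + 1) ≤ 1 := by
      rw [div_le_one (by positivity)]
      linarith
    nlinarith
  -- good functions
  have hgood : ∀ z ∈ Z, z ∉ B1 → z ∉ B2 →
      ((1 / 4 : ℝ) ^ k - ε / 2) * (n : ℝ) ^ (k + 1) ≤
        (((univ : Finset (Fin (k + 1) → Fin n)).filter (fun y =>
          Function.Injective y ∧ (fun i => z (y i)) ∈ GV)).card : ℝ) := by
    intro z hz h1 h2
    have hzinj : Function.Injective z := by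
      by_contra hcon
      exact h1 (by rw [hB1, mem_filter]; exact ⟨hz, hcon⟩)
    have hzV : ∀ j, z j ∈ V := Fintype.mem_piFinset.1 hz
    have h3 := hn₀ (Fin n) univ (fun _ => ()) (fun F => G (F.image z))
      (by rw [card_univ, Fintype.card_fin]; omega)
      (fun F F' hFF h => hG _ _ (image_subset_image hFF) h)
      (by
        intro T hT1 hTM H _ hH _
        by_contra hcon
        apply h2
        rw [hB2, mem_filter]
        refine ⟨hz, T, hT1, hTM, H, hH, ?_⟩
        rw [Exc, mem_filter]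
        refine ⟨?_, ?_, ?_⟩
        · rw [Fintype.mem_piFinset]
          intro g
          rw [Fintype.mem_piFinset]
          intro i
          exact hzV _
        · exact hzinj.comp hH
        · rintro ⟨S, c, hS, hGS⟩
          apply hcon
          refine ⟨S, c, hS, ?_⟩
          change G (image z (image (fun g => H g (c g)) S))
          rw [image_image]
          exact hGS)
    rw [card_univ, Fintype.card_fin] at h3
    refine h3.trans ?_
    rw [Nat.cast_le]
    apply card_le_card
    intro y hy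
    rw [mem_filter] at hy
    rw [mem_filter]
    refine ⟨mem_univ _, hy.2.1, ?_⟩
    rw [hGV, mem_filter]
    refine ⟨?_, hzinj.comp hy.2.1, ?_⟩
    · rw [Fintype.mem_piFinset]
      intro i
      exact hzV _
    · have h4 := hy.2.2
      rw [image_image] at h4
      exact h4
  -- double counting
  have hup : ∑ z ∈ Z, (((univ : Finset (Fin (k + 1) → Fin n)).filter (fun y =>
          Function.Injective y ∧ (fun i => z (y i)) ∈ GV)).card : ℝ) ≤
      (n : ℝ) ^ (k + 1) * (GV.card * (v : ℝ) ^ (n - (k + 1))) := by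
    have h1 : ∑ z ∈ Z, ((univ : Finset (Fin (k + 1) → Fin n)).filter (fun y =>
          Function.Injective y ∧ (fun i => z (y i)) ∈ GV)).card =
        ∑ y : Fin (k + 1) → Fin n, (Z.filter (fun z =>
          Function.Injective y ∧ (fun i => z (y i)) ∈ GV)).card := by
      simp only [card_filter]
      rw [sum_comm]
    have h2 : ∀ y : Fin (k + 1) → Fin n, (Z.filter (fun z =>
          Function.Injective y ∧ (fun i => z (y i)) ∈ GV)).card ≤
        GV.card * v ^ (n - (k + 1)) := by
      intro y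
      by_cases hy : Function.Injective y
      · have h3 := fib V y hy GV
        rw [Fintype.card_fin] at h3
        refine le_trans (card_le_card ?_) h3
        intro z hz
        rw [mem_filter] at hz ⊢
        exact ⟨hz.1, hz.2.2⟩
      · have h3 : Z.filter (fun z => Function.Injective y ∧ (fun i => z (y i)) ∈ GV) = ∅ := by
          apply filter_eq_empty_iff.2
          intro z _ h
          exact hy h.1
        rw [h3, card_empty]
        exact Nat.zero_le _
    have h4 : ∑ z ∈ Z, ((univ : Finset (Fin (k + 1) → Fin n)).filter (fun y =>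
          Function.Injective y ∧ (fun i => z (y i)) ∈ GV)).card ≤
        n ^ (k + 1) * (GV.card * v ^ (n - (k + 1))) := by
      rw [h1]
      refine (sum_le_card_nsmul _ _ _ (fun y _ => h2 y)).trans ?_
      rw [smul_eq_mul, card_univ, Fintype.card_fun, Fintype.card_fin, Fintype.card_fin]
    exact_mod_cast h4
  have hlow : (v : ℝ) ^ n * (1 - ε / 2) * (((1 / 4 : ℝ) ^ k - ε / 2) * (n : ℝ) ^ (k + 1)) ≤
      ∑ z ∈ Z, (((univ : Finset (Fin (k + 1) → Fin n)).filter (fun y =>
          Function.Injective y ∧ (fun i => z (y i)) ∈ GV)).card : ℝ) := by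
    have hsub : (Z \ (B1 ∪ B2)) ⊆ Z := sdiff_subset
    have hcard : (v : ℝ) ^ n * (1 - ε / 2) ≤ ((Z \ (B1 ∪ B2)).card : ℝ) := by
      have h1 : Z.card ≤ (Z \ (B1 ∪ B2)).card + (B1 ∪ B2).card := by
        rw [← card_union_of_disjoint sdiff_disjoint]
        apply card_le_card
        intro z hz
        by_cases h : z ∈ B1 ∪ B2
        · exact mem_union_right _ h
        · exact mem_union_left _ (mem_sdiff.2 ⟨hz, h⟩)
      have h2 : (B1 ∪ B2).card ≤ B1.card + B2.card := card_union_le _ _
      have h3 : (Z.card : ℝ) ≤ ((Z \ (B1 ∪ B2)).card : ℝ) + (B1.card + B2.card) := by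
        exact_mod_cast h1.trans (Nat.add_le_add_left h2 _)
      rw [hZc] at h3
      nlinarith
    have hnn : 0 ≤ ((1 / 4 : ℝ) ^ k - ε / 2) * (n : ℝ) ^ (k + 1) :=
      mul_nonneg (by linarith) (by positivity)
    refine (mul_le_mul_of_nonneg_right hcard hnn).trans ?_
    rw [← nsmul_eq_mul]
    refine (card_nsmul_le_sum _ _ _ (fun z hz => ?_)).trans
      (sum_le_sum_of_subset_of_nonneg hsub (fun _ _ _ => Nat.cast_nonneg _))
    rw [mem_sdiff, mem_union, not_or] at hz
    exact hgood z hz.1 hz.2.1 hz.2.2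
  have hfin := hlow.trans hup
  have hnp : (0 : ℝ) < (n : ℝ) ^ (k + 1) := by
    have : (0 : ℝ) < n := by
      rw [hn]
      positivity
    positivity
  have hvnp : (v : ℝ) ^ n = (v : ℝ) ^ (k + 1) * (v : ℝ) ^ (n - (k + 1)) := by
    rw [← pow_add]
    congr 1
    omega
  have hq : (0 : ℝ) < (v : ℝ) ^ (n - (k + 1)) := by positivity
  have h8 : (v : ℝ) ^ (k + 1) * (1 - ε / 2) * ((1 / 4 : ℝ) ^ k - ε / 2) ≤ GV.card := by
    rw [hvnp] at hfin
    have h9 : (v : ℝ) ^ (k + 1) * (1 - ε / 2) * ((1 / 4 : ℝ) ^ k - ε / 2) *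
        ((n : ℝ) ^ (k + 1) * (v : ℝ) ^ (n - (k + 1))) ≤
        GV.card * ((n : ℝ) ^ (k + 1) * (v : ℝ) ^ (n - (k + 1))) := by
      calc _ = (v : ℝ) ^ (k + 1) * (v : ℝ) ^ (n - (k + 1)) * (1 - ε / 2) *
            (((1 / 4 : ℝ) ^ k - ε / 2) * (n : ℝ) ^ (k + 1)) := by ring
        _ ≤ _ := hfin
        _ = _ := by ring
    exact le_of_mul_le_mul_right h9 (mul_pos hnp hq)
  refine le_trans ?_ h8
  have hvk : (0 : ℝ) ≤ (v : ℝ) ^ (k + 1) := by positivity
  have h10 : (1 / 4 : ℝ) ^ k - ε ≤ (1 - ε / 2) * ((1 / 4 : ℝ) ^ k - ε / 2) := by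
    nlinarith [mul_nonneg hε.le (sub_nonneg.2 ha1), mul_pos hε hε]
  calc ((1 / 4 : ℝ) ^ k - ε) * (v : ℝ) ^ (k + 1)
      ≤ ((1 - ε / 2) * ((1 / 4 : ℝ) ^ k - ε / 2)) * (v : ℝ) ^ (k + 1) :=
        mul_le_mul_of_nonneg_right h10 hvk
    _ = _ := by ring

end Pool.Agent.W11.HR
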